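import Pool.Agent.H741.EL.Stm

/-!
# Project EL, part COMP: an admissible curve from a convex body of larger area
-/

set_option autoImplicit false
open MeasureTheory Metric Set Filter Topology

namespace Pool.Agent.H603.EL
open Pool.Agent.Y508
open Pool.Agent.H741.EL

theorem AA_pos {a b : ℝ} (hb : 0 < b) (hab : b ≤ a) : 0 < AA a b := by
  have ha : 0 < a := lt_of_lt_of_le hb hab
  unfold AA
  positivity

/-- the shrunk set -/
def sh (p : E2) (l : ℝ) (K : Set E2) : Set E2 := (fun x : E2 => (1 - l) • p + l • x) '' K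

theorem sh_body {p : E2} {l : ℝ} (hl : 0 < l) {K : Set E2} (hK : Body K) : Body (sh p l K) := by
  refine ⟨hK.cpt.image (by fun_prop), hK.cvx.affinity _ _, ?_⟩
  have ho : IsOpenMap (fun x : E2 => (1 - l) • p + l • x) :=
    (isOpenMap_add_left ((1 - l) • p)).comp (isOpenMap_smul₀ hl.ne')
  exact (hK.int.image _).mono (ho.image_interior_subset K)

theorem sh_hom (p : E2) (l : ℝ) (K : Set E2) : sh p l K = AffineMap.homothety p l '' K := by
  refine image_congr fun x _ => ?_
  rw [AffineMap.homothety_apply, vsub_eq_sub, vadd_eq_add, smul_sub, sub_smul, one_smul]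
  abel

theorem sh_vol (p : E2) (l : ℝ) (K : Set E2) : volume.real (sh p l K) = l ^ 2 * volume.real K := by
  rw [sh_hom, Measure.real, Measure.addHaar_image_homothety, finrank_euclideanSpace_fin,
    ENNReal.toReal_mul, ENNReal.toReal_ofReal (abs_nonneg _), abs_of_nonneg (sq_nonneg l)]
  rfl

theorem sh_hs {p : E2} {l : ℝ} (hl : 0 < l) {K : Set E2} (hK : Body K) (θ : ℝ) :
    hs (sh p l K) θ = (1 - l) * ip p θ + l * hs K θ := by
  apply le_antisymm
  · apply hs_le (sh_body hl hK).ne
    rintro _ ⟨x, hx, rfl⟩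
    rw [ip_add, ip_smul, ip_smul]
    have := mul_le_mul_of_nonneg_left (le_hs hK.cpt hx θ) hl.le
    linarith
  · obtain ⟨x, hx, e⟩ := exists_hs hK.cpt hK.ne θ
    rw [e]
    have h := le_hs (sh_body (p := p) hl hK).cpt (mem_image_of_mem _ hx) θ
    rwa [ip_add, ip_smul, ip_smul] at h

theorem int_ip (p : E2) : ∫ θ in (0 : ℝ)..(2 * Real.pi), ip p θ = 0 := by
  unfold ip
  rw [intervalIntegral.integral_add (Continuous.intervalIntegrable (by fun_prop) _ _)
    (Continuous.intervalIntegrable (by fun_prop) _ _), intervalIntegral.integral_const_mul,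
    intervalIntegral.integral_const_mul, integral_cos, integral_sin]
  simp

theorem sh_W {p : E2} {l : ℝ} (hl : 0 < l) {K : Set E2} (hK : Body K) :
    W (sh p l K) = l * W K := by
  unfold W
  have e : ∀ θ, hs (sh p l K) θ = (1 - l) * ip p θ + l * hs K θ := fun θ => sh_hs hl hK θ
  have i1 : Continuous fun θ => (1 - l) * ip p θ := continuous_const.mul (cont_ip p)
  have i2 : Continuous fun θ => l * hs K θ := continuous_const.mul (cont_hs hK.cpt)
  simp only [e]
  rw [intervalIntegral.integral_add (i1.intervalIntegrable _ _) (i2.intervalIntegrable _ _),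
    intervalIntegral.integral_const_mul, intervalIntegral.integral_const_mul, int_ip, mul_zero,
    zero_add]

theorem t_COMP (h1 : S_COMP0) (h2 : S_ELL) : S_COMP := by
  intro a b p K hb hab hp hK hsub hpK hvol
  obtain ⟨e1, -, -, -, -, -, e7, -⟩ := h2 a b hb hab
  have hA := AA_pos hb hab
  have hV : 0 < volume.real K := hA.trans hvol
  have hq0 : 0 < AA a b / volume.real K := div_pos hA hV
  have hq1 : AA a b / volume.real K < 1 := (div_lt_one hV).2 hvol
  set l : ℝ := Real.sqrt (AA a b / volume.real K) with hl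
  have l0 : 0 < l := Real.sqrt_pos.2 hq0
  have l1 : l < 1 := by
    rw [hl, Real.sqrt_lt' one_pos, one_pow]
    exact hq1
  have l2 : l ^ 2 = AA a b / volume.real K := Real.sq_sqrt hq0.le
  have hc : sh p l K ∩ bdE a b = {p} := by
    apply Subset.antisymm
    · rintro y ⟨⟨x, hx, rfl⟩, hy⟩
      rw [mem_singleton_iff]
      by_cases hxp : p = x
      · subst hxp
        show (1 - l) • p + l • p = p
        rw [← add_smul, sub_add_cancel, one_smul]
      · exfalso
        have h3 := e7 p (hsub hpK) x (hsub hx) hxp l l0 l1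
        simp only [bdE, inE, mem_ofPred_eq] at hy h3
        exact absurd hy h3.ne
    · rintro y hy
      rw [mem_singleton_iff] at hy
      subst hy
      refine ⟨⟨y, hpK, ?_⟩, hp⟩
      show (1 - l) • y + l • y = y
      rw [← add_smul, sub_add_cancel, one_smul]
  have hs : sh p l K ⊆ Ell a b := by
    rintro _ ⟨x, hx, rfl⟩
    exact e1.cvx (hsub hpK) (hsub hx) (by linarith) l0.le (by ring)
  have hv : volume.real (sh p l K) = AA a b := by
    rw [sh_vol, l2, div_mul_cancel₀ _ hV.ne']
  obtain ⟨γ, g1, -, g3⟩ := h1 a b p (sh p l K) hb hab (sh_body l0 hK) hs hc hv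
  refine ⟨γ, g1, ?_⟩
  rwa [sh_W l0 hK] at g3

end Pool.Agent.H603.EL
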